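import Pool.Agent.N463.MI.Stm

/-!
Project MI, part E04: rotation of the contour.
-/

set_option autoImplicit false

open Complex MeasureTheory Set Filter Topology

noncomputable section

namespace Pool.Agent.N723.MI

open Pool.Agent.N463.MI

/-- the sector with slack -/
def Sct : Set ℂ := {z | 0 ≤ z.re ∧ |z.im| ≤ 11 / 10 * z.re}

theorem re_ge (h1 : E01) {b s y : ℝ} (hb0 : 0 ≤ b) (hb : b ≤ 3) (hs : 0 ≤ s)
    (hy : |y| ≤ 11 / 10 * s) : 2 / 5 ≤ 1 + b * Real.exp (-s) * Real.cos y := by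
  have e1 : |10 / 11 * y| ≤ s := by
    rw [abs_mul, abs_of_pos (by norm_num : (0 : ℝ) < 10 / 11)]
    linarith
  have h := h1 b s (10 / 11 * y) hb0 hb hs e1
  have h2 := Real.abs_cos_sub_cos_le (10 / 11 * y) y
  have h3 : |10 / 11 * y - y| ≤ s / 10 := by
    rw [show 10 / 11 * y - y = -(1 / 11) * y by ring, abs_mul, abs_neg,
      abs_of_pos (by norm_num : (0 : ℝ) < 1 / 11)]
    linarith
  have h4 : Real.cos (10 / 11 * y) - Real.cos y ≤ s / 10 := (le_abs_self _).trans (h2.trans h3)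
  have h5 : s * Real.exp (-s) ≤ 1 := by
    have h6 := Real.add_one_le_exp s
    rw [Real.exp_neg, ← div_eq_mul_inv, div_le_one (Real.exp_pos _)]
    linarith
  have hE := Real.exp_pos (-s)
  have h7 : b * Real.exp (-s) * (Real.cos (10 / 11 * y) - Real.cos y) ≤ 3 / 10 := by
    calc b * Real.exp (-s) * (Real.cos (10 / 11 * y) - Real.cos y)
        ≤ b * Real.exp (-s) * (s / 10) := by
          apply mul_le_mul_of_nonneg_left h4 (by positivity)
      _ = b * (s * Real.exp (-s)) / 10 := by ring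
      _ ≤ 3 * 1 / 10 := by
          have : b * (s * Real.exp (-s)) ≤ 3 * 1 :=
            mul_le_mul hb h5 (by positivity) (by norm_num)
          linarith
      _ = 3 / 10 := by norm_num
  nlinarith [h7]

theorem mem_slit (h1 : E01) {b : ℝ} (hb0 : 0 ≤ b) (hb : b ≤ 3) {z : ℂ} (hz : z ∈ Sct) :
    1 + (b : ℂ) * exp (-z) ∈ slitPlane := by
  rw [mem_slitPlane_iff]
  left
  have e : (1 + (b : ℂ) * exp (-z)).re = 1 + b * Real.exp (-z.re) * Real.cos z.im := by
    rw [add_re, one_re, re_ofReal_mul, exp_re, neg_re, neg_im, Real.cos_neg]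
    ring
  rw [e]
  have := re_ge h1 hb0 hb hz.1 hz.2
  linarith

/-- the derivative of `gg a` -/
def gd (a : ℝ) (z : ℂ) : ℂ :=
  -((a : ℂ) * exp (-z)) / (1 + (a : ℂ) * exp (-z)) - -(exp (-z)) / (1 + exp (-z))

theorem hasDerivAt_gg (h1 : E01) {a : ℝ} (ha0 : 0 ≤ a) (ha : a ≤ 3) {z : ℂ} (hz : z ∈ Sct) :
    HasDerivAt (gg a) (gd a z) z := by
  have s1 := mem_slit h1 ha0 ha hz
  have s2 := mem_slit h1 (b := 1) (by norm_num) (by norm_num) hz
  rw [ofReal_one, one_mul] at s2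
  have d0 : HasDerivAt (fun z : ℂ => exp (-z)) (-exp (-z)) z := by
    have := (hasDerivAt_exp (-z)).comp z (hasDerivAt_neg z)
    rw [mul_neg_one] at this
    exact this
  have d1 : HasDerivAt (fun z : ℂ => 1 + (a : ℂ) * exp (-z)) (-((a : ℂ) * exp (-z))) z := by
    have := (d0.const_mul (a : ℂ)).const_add 1
    rw [mul_neg] at this
    exact this
  have d2 : HasDerivAt (fun z : ℂ => 1 + exp (-z)) (-exp (-z)) z := d0.const_add 1
  exact (d1.clog s1).sub (d2.clog s2)

theorem continuousOn_gg (h1 : E01) {a : ℝ} (ha0 : 0 ≤ a) (ha : a ≤ 3) :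
    ContinuousOn (gg a) Sct := fun _ hz =>
  (hasDerivAt_gg h1 ha0 ha hz).continuousAt.continuousWithinAt

theorem continuousOn_gd (h1 : E01) {a : ℝ} (ha0 : 0 ≤ a) (ha : a ≤ 3) :
    ContinuousOn (gd a) Sct := by
  unfold gd
  refine ContinuousOn.sub (ContinuousOn.div (by fun_prop) (by fun_prop) ?_)
    (ContinuousOn.div (by fun_prop) (by fun_prop) ?_)
  · intro z hz
    exact slitPlane_ne_zero (mem_slit h1 ha0 ha hz)
  · intro z hz
    have s2 := mem_slit h1 (b := 1) (by norm_num) (by norm_num) hz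
    rw [ofReal_one, one_mul] at s2
    exact slitPlane_ne_zero s2

theorem sp_re (t x u : ℝ) : (sp t x u).re = u * t := by
  unfold sp
  simp

theorem sp_im (t x u : ℝ) : (sp t x u).im = -(u * t * x) := by
  unfold sp
  simp
  ring

theorem sp_mem {t x u : ℝ} (ht : 0 < t) (hu : 0 ≤ u) (hx : |x| ≤ 11 / 10) : sp t x u ∈ Sct := by
  constructor
  · rw [sp_re]; positivity
  · rw [sp_re, sp_im, abs_neg, abs_mul, abs_of_nonneg (by positivity : 0 ≤ u * t)]
    nlinarith [mul_nonneg hu ht.le]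

theorem continuous_sp (t : ℝ) : Continuous (fun q : ℝ × ℝ => sp t q.1 q.2) := by
  unfold sp
  fun_prop

/-- the derivative of `u g(uτ)` in `u` -/
def kk (a t x u : ℝ) : ℂ := gg a (sp t x u) + sp t x u * gd a (sp t x u)

theorem continuousOn_kk (h1 : E01) {a t : ℝ} (ha0 : 0 ≤ a) (ha : a ≤ 3) (ht : 0 < t) :
    ContinuousOn (fun q : ℝ × ℝ => kk a t q.1 q.2) (Icc (-(11 / 10)) (11 / 10) ×ˢ Ici 0) := by
  have hm : MapsTo (fun q : ℝ × ℝ => sp t q.1 q.2) (Icc (-(11 / 10)) (11 / 10) ×ˢ Ici 0) Sct := by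
    rintro ⟨x, u⟩ ⟨hx, hu⟩
    exact sp_mem ht hu (abs_le.2 hx)
  unfold kk
  exact ((continuousOn_gg h1 ha0 ha).comp (continuous_sp t).continuousOn hm).add
    ((continuous_sp t).continuousOn.mul
      ((continuousOn_gd h1 ha0 ha).comp (continuous_sp t).continuousOn hm))

theorem continuousOn_gg_u (h1 : E01) {a t x : ℝ} (ha0 : 0 ≤ a) (ha : a ≤ 3) (ht : 0 < t)
    (hx : |x| ≤ 11 / 10) : ContinuousOn (fun u : ℝ => gg a (sp t x u)) (Ici 0) := by
  have hp : Continuous (fun u : ℝ => sp t x u) := by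
    unfold sp
    fun_prop
  exact (continuousOn_gg h1 ha0 ha).comp hp.continuousOn (fun u hu => sp_mem ht hu hx)

theorem continuousOn_kk_u (h1 : E01) {a t x : ℝ} (ha0 : 0 ≤ a) (ha : a ≤ 3) (ht : 0 < t)
    (hx : |x| ≤ 11 / 10) : ContinuousOn (fun u : ℝ => kk a t x u) (Ici 0) := by
  have hp : Continuous (fun u : ℝ => sp t x u) := by
    unfold sp
    fun_prop
  have hd : ContinuousOn (fun u : ℝ => gd a (sp t x u)) (Ici 0) :=
    (continuousOn_gd h1 ha0 ha).comp hp.continuousOn (fun u hu => sp_mem ht hu hx)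
  unfold kk
  exact (continuousOn_gg_u h1 ha0 ha ht hx).add (hp.continuousOn.mul hd)

theorem hasDerivAt_u (h1 : E01) {a t x : ℝ} (ha0 : 0 ≤ a) (ha : a ≤ 3) (ht : 0 < t)
    (hx : |x| ≤ 11 / 10) {u : ℝ} (hu : 0 ≤ u) :
    HasDerivAt (fun u : ℝ => (u : ℂ) * gg a (sp t x u)) (kk a t x u) u := by
  have d1 : HasDerivAt (fun u : ℝ => (u : ℂ)) 1 u := ofRealCLM.hasDerivAt
  have d2 : HasDerivAt (fun u : ℝ => sp t x u) ((t : ℂ) * (1 - (x : ℂ) * I)) u := by
    have := d1.mul_const ((t : ℂ) * (1 - (x : ℂ) * I))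
    rw [one_mul] at this
    exact this
  have d3 : HasDerivAt (fun u : ℝ => gg a (sp t x u))
      (gd a (sp t x u) * ((t : ℂ) * (1 - (x : ℂ) * I))) u :=
    (hasDerivAt_gg h1 ha0 ha (sp_mem ht hu hx)).comp_of_eq u d2 rfl
  have d4 := d1.mul d3
  refine d4.congr_deriv ?_
  unfold kk
  have : sp t x u = (u : ℂ) * ((t : ℂ) * (1 - (x : ℂ) * I)) := rfl
  generalize hg : gg a (sp t x u) = g
  generalize hg' : gd a (sp t x u) = g'
  rw [this]
  ring

theorem hasDerivAt_x (h1 : E01) {a t x : ℝ} (ha0 : 0 ≤ a) (ha : a ≤ 3) (ht : 0 < t)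
    (hx : |x| ≤ 11 / 10) {u : ℝ} (hu : 0 ≤ u) :
    HasDerivAt (fun x : ℝ => ((t : ℂ) * (1 - (x : ℂ) * I)) * gg a (sp t x u))
      ((-(t : ℂ) * I) * kk a t x u) x := by
  have d1 : HasDerivAt (fun x : ℝ => (x : ℂ)) 1 x := ofRealCLM.hasDerivAt
  have d2 : HasDerivAt (fun x : ℝ => (t : ℂ) * (1 - (x : ℂ) * I)) (-(t : ℂ) * I) x := by
    have := ((d1.mul_const I).const_sub 1).const_mul (t : ℂ)
    refine this.congr_deriv ?_
    ring
  have d2' : HasDerivAt (fun x : ℝ => sp t x u) ((u : ℂ) * (-(t : ℂ) * I)) x :=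
    d2.const_mul (u : ℂ)
  have d3 : HasDerivAt (fun x : ℝ => gg a (sp t x u))
      (gd a (sp t x u) * ((u : ℂ) * (-(t : ℂ) * I))) x :=
    (hasDerivAt_gg h1 ha0 ha (sp_mem ht hu hx)).comp_of_eq x d2' rfl
  have d4 := d2.mul d3
  refine d4.congr_deriv ?_
  unfold kk
  have : sp t x u = (u : ℂ) * ((t : ℂ) * (1 - (x : ℂ) * I)) := rfl
  generalize hg : gg a (sp t x u) = g
  generalize hg' : gd a (sp t x u) = g'
  rw [this]
  ring

/-- the derivative of the truncated integral -/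
theorem key (h1 : E01) {a t x U : ℝ} (ha0 : 0 ≤ a) (ha : a ≤ 3) (ht : 0 < t)
    (hU : 0 ≤ U) (hx : |x| < 11 / 10) :
    HasDerivAt (fun x : ℝ => ∫ u in (0 : ℝ)..U, ((t : ℂ) * (1 - (x : ℂ) * I)) * gg a (sp t x u))
      ((-(t : ℂ) * I) * ((U : ℂ) * gg a (sp t x U))) x := by
  have hIcc : uIcc 0 U = Icc 0 U := uIcc_of_le hU
  obtain ⟨C, hC⟩ := (isCompact_Icc.prod (isCompact_Icc (a := (0 : ℝ)) (b := U))).exists_bound_of_continuousOn
    ((continuousOn_kk h1 ha0 ha ht).mono (prod_mono_right Icc_subset_Ici_self))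
  have hxx : |x| ≤ 11 / 10 := hx.le
  have hs : Ioo (-(11 / 10 : ℝ)) (11 / 10) ∈ 𝓝 x := Ioo_mem_nhds (abs_lt.1 hx).1 (abs_lt.1 hx).2
  have h := intervalIntegral.hasDerivAt_integral_of_dominated_loc_of_deriv_le (μ := volume)
    (a := 0) (b := U) (x₀ := x) (s := Ioo (-(11 / 10 : ℝ)) (11 / 10))
    (F := fun (x u : ℝ) => ((t : ℂ) * (1 - (x : ℂ) * I)) * gg a (sp t x u))
    (F' := fun (x u : ℝ) => (-(t : ℂ) * I) * kk a t x u) (bound := fun _ => t * C)
    hs ?_ ?_ ?_ ?_ ?_ ?_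
  · refine h.2.congr_deriv ?_
    rw [intervalIntegral.integral_const_mul]
    congr 1
    have h2 := intervalIntegral.integral_eq_sub_of_hasDerivAt (a := 0) (b := U)
      (f := fun u : ℝ => (u : ℂ) * gg a (sp t x u)) (f' := fun u => kk a t x u) ?_ ?_
    · rw [h2, ofReal_zero, zero_mul, sub_zero]
    · intro u hu
      rw [hIcc] at hu
      exact hasDerivAt_u h1 ha0 ha ht hxx hu.1
    · apply ContinuousOn.intervalIntegrable
      rw [hIcc]
      exact (continuousOn_kk_u h1 ha0 ha ht hxx).mono Icc_subset_Ici_self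
  · filter_upwards [hs] with y hy
    refine ContinuousOn.aestronglyMeasurable ?_ measurableSet_uIoc
    rw [uIoc_of_le hU]
    exact (continuousOn_const.mul (continuousOn_gg_u h1 ha0 ha ht
      (abs_le.2 ⟨hy.1.le, hy.2.le⟩))).mono (fun u hu => hu.1.le)
  · apply ContinuousOn.intervalIntegrable
    rw [hIcc]
    exact (continuousOn_const.mul (continuousOn_gg_u h1 ha0 ha ht hxx)).mono Icc_subset_Ici_self
  · refine ContinuousOn.aestronglyMeasurable ?_ measurableSet_uIoc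
    rw [uIoc_of_le hU]
    exact (continuousOn_const.mul (continuousOn_kk_u h1 ha0 ha ht hxx)).mono (fun u hu => hu.1.le)
  · refine Eventually.of_forall fun u hu y hy => ?_
    rw [uIoc_of_le hU] at hu
    have h3 := hC (y, u) ⟨⟨hy.1.le, hy.2.le⟩, ⟨hu.1.le, hu.2⟩⟩
    rw [norm_mul, norm_mul, norm_neg, norm_I, mul_one, norm_real, Real.norm_eq_abs, abs_of_pos ht]
    exact mul_le_mul_of_nonneg_left h3 ht.le
  · exact intervalIntegrable_const
  · refine Eventually.of_forall fun u hu y hy => ?_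
    rw [uIoc_of_le hU] at hu
    exact hasDerivAt_x h1 ha0 ha ht (abs_le.2 ⟨hy.1.le, hy.2.le⟩) hu.1.le

theorem t_E04 (h1 : E01) (h3 : E03) (hb : E05b) : E04 := by
  intro a t x ha ht hx
  have ha0 : 0 ≤ a := by rcases ha with rfl | rfl <;> norm_num
  have ha3 : a ≤ 3 := by rcases ha with rfl | rfl <;> norm_num
  have hbd : ∀ y : ℝ, |y| ≤ 1 → ∀ u : ℝ, 0 ≤ u →
      ‖gg a (sp t y u)‖ ≤ 6 * Real.exp (-(t * u)) := by
    intro y hy
    obtain ⟨_, _, _, _, _, _, _, h⟩ := hb a t y ha ht hy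
    exact h
  have hint : ∀ y : ℝ, |y| ≤ 1 → IntegrableOn (fun u : ℝ => gg a (sp t y u)) (Ioi 0) := by
    intro y hy
    have hE : IntegrableOn (fun u : ℝ => 6 * Real.exp (-t * u)) (Ioi 0) :=
      (integrableOn_exp_mul_Ioi (neg_lt_zero.2 ht) 0).const_mul 6
    refine Integrable.mono' hE ?_ ?_
    · exact ((continuousOn_gg_u h1 ha0 ha3 ht (hy.trans (by norm_num))).mono
        Ioi_subset_Ici_self).aestronglyMeasurable measurableSet_Ioi
    · refine (ae_restrict_iff' measurableSet_Ioi).2 (Eventually.of_forall fun u hu => ?_)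
      rw [neg_mul]
      exact hbd y hy u (le_of_lt hu)
  -- the truncated integrals
  let Φ : ℝ → ℝ → ℂ := fun U y => ∫ u in (0 : ℝ)..U, ((t : ℂ) * (1 - (y : ℂ) * I)) * gg a (sp t y u)
  have hlim : ∀ y : ℝ, |y| ≤ 1 → Tendsto (fun U : ℝ => Φ U y) atTop
      (𝓝 (((t : ℂ) * (1 - (y : ℂ) * I)) * ∫ u in Ioi (0 : ℝ), gg a (sp t y u))) := by
    intro y hy
    have h4 := intervalIntegral_tendsto_integral_Ioi 0
      ((hint y hy).const_mul ((t : ℂ) * (1 - (y : ℂ) * I))) tendsto_id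
    rw [integral_const_mul] at h4
    exact h4
  have hdiff : ∀ U : ℝ, 0 ≤ U → ‖Φ U x - Φ U 0‖ ≤ t * (U * (6 * Real.exp (-(t * U)))) := by
    intro U hU
    have h5 := (convex_Icc (-1 : ℝ) 1).norm_image_sub_le_of_norm_hasDerivWithin_le
      (f := fun y => Φ U y) (f' := fun y => (-(t : ℂ) * I) * ((U : ℂ) * gg a (sp t y U)))
      (C := t * (U * (6 * Real.exp (-(t * U))))) (x := 0) (y := x) ?_ ?_ ?_ ?_
    · refine h5.trans ?_
      rw [sub_zero]
      refine mul_le_of_le_one_right (by positivity) hx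
    · intro y hy
      exact (key h1 ha0 ha3 ht hU ((abs_le.2 hy).trans_lt (by norm_num))).hasDerivWithinAt
    · intro y hy
      rw [norm_mul, norm_mul, norm_neg, norm_I, mul_one, norm_real, Real.norm_eq_abs,
        abs_of_pos ht, norm_mul, norm_real, Real.norm_eq_abs, abs_of_nonneg hU]
      gcongr
      exact hbd y (abs_le.2 hy) U hU
    · constructor <;> norm_num
    · exact abs_le.1 hx
  have hzero : Tendsto (fun U : ℝ => t * (U * (6 * Real.exp (-(t * U))))) atTop (𝓝 0) := by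
    have h6 := (Real.tendsto_pow_mul_exp_neg_atTop_nhds_zero 1).comp
      (tendsto_id.const_mul_atTop ht)
    have h7 := h6.const_mul 6
    rw [mul_zero] at h7
    refine h7.congr fun U => ?_
    simp only [Function.comp, id, pow_one]
    ring
  have hJ : ((t : ℂ) * (1 - (x : ℂ) * I)) * (∫ u in Ioi (0 : ℝ), gg a (sp t x u)) =
      ((t : ℂ) * (1 - ((0 : ℝ) : ℂ) * I)) * ∫ u in Ioi (0 : ℝ), gg a (sp t 0 u) := by
    have h8 := ((hlim x hx).sub (hlim 0 (by norm_num))).norm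
    have h9 : Tendsto (fun U : ℝ => ‖Φ U x - Φ U 0‖) atTop (𝓝 0) := by
      refine squeeze_zero' (Eventually.of_forall fun _ => norm_nonneg _) ?_ hzero
      filter_upwards [eventually_ge_atTop (0 : ℝ)] with U hU
      exact hdiff U hU
    have h10 := tendsto_nhds_unique h8 h9
    rw [norm_eq_zero, sub_eq_zero] at h10
    exact h10
  -- the real integral
  have h0 : (t : ℂ) * (∫ u in Ioi (0 : ℝ), gg a (sp t 0 u)) = (cst a : ℂ) := by
    have e1 : ∀ u : ℝ, gg a (sp t 0 u) =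
        ((fun v : ℝ => Real.log (1 + a * Real.exp (-v)) - Real.log (1 + Real.exp (-v))) (t * u) : ℝ) := by
      intro u
      have e2 : sp t 0 u = ((t * u : ℝ) : ℂ) := by
        unfold sp
        push_cast
        ring
      rw [e2]
      unfold gg
      have p1 : 0 ≤ 1 + a * Real.exp (-(t * u)) := by positivity
      have p2 : 0 ≤ 1 + Real.exp (-(t * u)) := by positivity
      simp only [ofReal_sub, ofReal_log p1, ofReal_log p2]
      push_cast
      rfl
    have e3 : ∫ u in Ioi (0 : ℝ), gg a (sp t 0 u) = ((∫ u in Ioi (0 : ℝ),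
        (fun v : ℝ => Real.log (1 + a * Real.exp (-v)) - Real.log (1 + Real.exp (-v))) (t * u) : ℝ) : ℂ) := by
      rw [← integral_complex_ofReal]
      exact integral_congr_ae (Eventually.of_forall e1)
    have e4 := integral_comp_mul_left_Ioi
      (fun v : ℝ => Real.log (1 + a * Real.exp (-v)) - Real.log (1 + Real.exp (-v))) 0 ht
    rw [mul_zero, h3 a ha, smul_eq_mul] at e4
    rw [e3, e4]
    push_cast
    rw [mul_inv_cancel_left₀]
    exact_mod_cast ht.ne'
  rw [ofReal_zero, zero_mul, sub_zero, mul_one, h0] at hJ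
  rw [eq_div_iff, mul_comm]
  · exact hJ
  · apply mul_ne_zero
    · exact_mod_cast ht.ne'
    · intro h
      have := congrArg re h
      simp at this

end Pool.Agent.N723.MI
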